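import Pool.Agent.Helper73.SM.Goals

/-!
# Packet SM-BAS (MP_c307ca_nt)
-/

set_option autoImplicit false

namespace Pool.Agent.Helper25.SM

open Pool.Agent.Helper73.SM

lemma nm_nonneg (v : ℝ × ℝ) : 0 ≤ nm v := le_max_of_le_left (abs_nonneg _)

lemma abs_dr_le (g v : ℝ × ℝ) : |dr g v| ≤ 2 * nm g * nm v := by
  unfold dr
  have h1 : |g.1| ≤ nm g := le_max_left _ _
  have h2 : |g.2| ≤ nm g := le_max_right _ _
  have h3 : |v.1| ≤ nm v := le_max_left _ _
  have h4 : |v.2| ≤ nm v := le_max_right _ _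
  have h5 : |g.1 * v.2 - g.2 * v.1| ≤ |g.1 * v.2| + |g.2 * v.1| := abs_sub _ _
  rw [abs_mul, abs_mul] at h5
  have h6 : |g.1| * |v.2| ≤ nm g * nm v :=
    mul_le_mul h1 h4 (abs_nonneg _) (nm_nonneg g)
  have h7 : |g.2| * |v.1| ≤ nm g * nm v :=
    mul_le_mul h2 h3 (abs_nonneg _) (nm_nonneg g)
  linarith

lemma coef_bounds (x y : ℤ) (u v : ℝ × ℝ) (hD : dr u v ≠ 0) (hg : nm (cb x y u v) ≤ 1) :
    |(x : ℝ)| ≤ 2 * nm v / |dr u v| ∧ |(y : ℝ)| ≤ 2 * nm u / |dr u v| := by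
  have hDp : 0 < |dr u v| := abs_pos.mpr hD
  constructor
  · rw [le_div_iff₀ hDp]
    have e : dr (cb x y u v) v = (x : ℝ) * dr u v := by
      unfold dr cb
      ring
    have h1 := abs_dr_le (cb x y u v) v
    rw [e, abs_mul] at h1
    have h2 : 2 * nm (cb x y u v) * nm v ≤ 2 * 1 * nm v := by
      apply mul_le_mul_of_nonneg_right _ (nm_nonneg v)
      linarith
    linarith
  · rw [le_div_iff₀ hDp]
    have e : dr u (cb x y u v) = (y : ℝ) * dr u v := by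
      unfold dr cb
      ring
    have h1 := abs_dr_le u (cb x y u v)
    rw [e, abs_mul] at h1
    have h2 : 2 * nm u * nm (cb x y u v) ≤ 2 * nm u * 1 := by
      apply mul_le_mul_of_nonneg_left hg
      have := nm_nonneg u
      linarith
    linarith

/-- change of coefficients -/
def chg (a b c d : ℤ) (w : ℤ × ℤ) : ℤ × ℤ := (w.1 * d - w.2 * c, w.2 * a - w.1 * b)

lemma chg_cb (a b c d : ℤ) (h : a * d - b * c = 1) (w : ℤ × ℤ) (u v : ℝ × ℝ) :
    cb (chg a b c d w).1 (chg a b c d w).2 (cb a b u v) (cb c d u v) = cb w.1 w.2 u v := by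
  have h' : (a : ℝ) * d - b * c = 1 := by exact_mod_cast h
  unfold chg cb
  simp only [Prod.mk.injEq]
  push_cast
  constructor
  · linear_combination ((w.1 : ℝ) * u.1 + w.2 * v.1) * h'
  · linear_combination ((w.1 : ℝ) * u.2 + w.2 * v.2) * h'

lemma chg_dt (a b c d : ℤ) (h : a * d - b * c = 1) (w z : ℤ × ℤ) :
    dt (chg a b c d w) (chg a b c d z) = dt w z := by
  unfold chg dt
  simp only
  linear_combination (w.1 * z.2 - w.2 * z.1) * h

lemma chg_inj (a b c d : ℤ) (h : a * d - b * c = 1) :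
    Function.Injective (chg a b c d) := by
  rintro ⟨x, y⟩ ⟨x', y'⟩ he
  unfold chg at he
  simp only [Prod.mk.injEq] at he ⊢
  obtain ⟨h1, h2⟩ := he
  constructor
  · linear_combination a * h1 + c * h2 - (x - x') * h
  · linear_combination b * h1 + d * h2 - (y - y') * h

lemma dr_cb (a b c d : ℤ) (h : a * d - b * c = 1) (u v : ℝ × ℝ) :
    dr (cb a b u v) (cb c d u v) = dr u v := by
  have h' : (a : ℝ) * d - b * c = 1 := by exact_mod_cast h
  unfold dr cb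
  simp only
  linear_combination (u.1 * v.2 - u.2 * v.1) * h'

/-- PACKET BAS -/
theorem goalBAS (hRED : StmtRED) (hCG : StmtCG) : StmtBAS := by
  intro u v hD
  obtain ⟨a, b, c, d, hdet, hle, hprod⟩ := hRED u v hD
  set u' := cb a b u v with hu'
  set v' := cb c d u v with hv'
  have hdr : dr u' v' = dr u v := dr_cb a b c d hdet u v
  have hD' : dr u' v' ≠ 0 := by rw [hdr]; exact hD
  have hDp : 0 < |dr u v| := abs_pos.mpr hD
  obtain ⟨hfin, hcard⟩ := hCG (2 * nm v' / |dr u v|) (2 * nm u' / |dr u v|)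
    (by have := nm_nonneg u'; positivity)
    (by
      apply div_le_div_of_nonneg_right _ hDp.le
      linarith)
  set T : Set Mat := {w : Mat | |(w.1.1 : ℝ)| ≤ 2 * nm v' / |dr u v| ∧
    |(w.2.1 : ℝ)| ≤ 2 * nm v' / |dr u v| ∧ |(w.1.2 : ℝ)| ≤ 2 * nm u' / |dr u v| ∧
    |(w.2.2 : ℝ)| ≤ 2 * nm u' / |dr u v| ∧ |dt w.1 w.2| = 1} with hT
  let F : Mat → Mat := fun w => (chg a b c d w.1, chg a b c d w.2)
  have hF : Function.Injective F := by
    rintro ⟨w1, w2⟩ ⟨z1, z2⟩ he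
    simp only [F, Prod.mk.injEq] at he ⊢
    exact ⟨chg_inj a b c d hdet he.1, chg_inj a b c d hdet he.2⟩
  have hmaps : ∀ w ∈ {w : Mat | |dt w.1 w.2| = 1 ∧ nm (cb w.1.1 w.1.2 u v) ≤ 1 ∧
      nm (cb w.2.1 w.2.2 u v) ≤ 1}, F w ∈ T := by
    rintro w ⟨h1, h2, h3⟩
    rw [← chg_cb a b c d hdet w.1 u v] at h2
    rw [← chg_cb a b c d hdet w.2 u v] at h3
    obtain ⟨p1, p2⟩ := coef_bounds _ _ u' v' hD' h2
    obtain ⟨q1, q2⟩ := coef_bounds _ _ u' v' hD' h3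
    rw [hdr] at p1 p2 q1 q2
    refine ⟨p1, q1, p2, q2, ?_⟩
    show |dt (chg a b c d w.1) (chg a b c d w.2)| = 1
    rw [chg_dt a b c d hdet]
    exact h1
  refine ⟨Set.Finite.of_injOn hmaps hF.injOn hfin, ?_⟩
  have hc : ({w : Mat | |dt w.1 w.2| = 1 ∧ nm (cb w.1.1 w.1.2 u v) ≤ 1 ∧
      nm (cb w.2.1 w.2.2 u v) ≤ 1}).ncard ≤ T.ncard :=
    Set.ncard_le_ncard_of_injOn F hmaps hF.injOn hfin
  have hc' : (({w : Mat | |dt w.1 w.2| = 1 ∧ nm (cb w.1.1 w.1.2 u v) ≤ 1 ∧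
      nm (cb w.2.1 w.2.2 u v) ≤ 1}).ncard : ℝ) ≤ (T.ncard : ℝ) := by exact_mod_cast hc
  refine hc'.trans (hcard.trans ?_)
  have e : 48 * (2 * nm v' / |dr u v|) * (2 * nm u' / |dr u v|)
      = 192 * (nm u' * nm v') / (|dr u v| * |dr u v|) := by
    field_simp
    ring
  rw [e, div_le_div_iff₀ (by positivity) hDp]
  have h8 : 192 * (nm u' * nm v') ≤ 384 * |dr u v| := by linarith
  calc 192 * (nm u' * nm v') * |dr u v| ≤ 384 * |dr u v| * |dr u v| :=
        mul_le_mul_of_nonneg_right h8 hDp.le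
    _ = 384 * (|dr u v| * |dr u v|) := by ring

end Pool.Agent.Helper25.SM
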